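import Pool.Agent.Y461.KM.Stm

/-!
# Project KM: derivatives of an invariant polynomial are proportional to a symmetrized gradient
-/

set_option autoImplicit false

namespace Pool.Agent.Y567.KM

open MvPolynomial Pool.Agent.Y461.KM

variable {n m : ℕ}

/-- The translate of `g` by a word. -/
noncomputable def hw (A : Matrix (Fin n) (Fin n) ℤ) (b : Fin n → Fin m → ℚ)
    (w : List (Fin n)) (g : Pl n m) : Pl n m :=
  w.foldr (fun j x => rf A b j x) g

/-- Coefficients of the linear form `rl A b r`. -/
noncomputable def bet (A : Matrix (Fin n) (Fin n) ℤ) (b : Fin n → Fin m → ℚ)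
    (r : Fin n → ℤ) : Fin n ⊕ Fin m → ℚ :=
  Sum.elim (fun j => ∑ l, (r l : ℚ) * (A j l : ℚ)) (fun s => ∑ l, (r l : ℚ) * b l s)

/-- Coordinates of the vector with coroot coordinates `v`. -/
def vec (m : ℕ) (v : Fin n → ℤ) : Fin n ⊕ Fin m → ℚ :=
  Sum.elim (fun k => (v k : ℚ)) (fun _ => 0)

theorem bet_lin (A : Matrix (Fin n) (Fin n) ℤ) (b : Fin n → Fin m → ℚ) (r : Fin n → ℤ) :
    ∑ x, C (bet A b r x) * X x = rl A b r := by
  classical
  simp only [Fintype.sum_sum_type, bet, Sum.elim_inl, Sum.elim_inr, rl, al, map_sum, map_mul,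
    mul_add, Finset.mul_sum, Finset.sum_mul, Finset.sum_add_distrib]
  congr 1
  · rw [Finset.sum_comm]
    simp only [mul_assoc]
  · rw [Finset.sum_comm]
    simp only [mul_assoc]

theorem bet_vec (A : Matrix (Fin n) (Fin n) ℤ) (b : Fin n → Fin m → ℚ) (r v : Fin n → ℤ) :
    ∑ x, bet A b r x * vec m v x = ((pr A r v : ℤ) : ℚ) := by
  simp only [Fintype.sum_sum_type, bet, vec, Sum.elim_inl, Sum.elim_inr, mul_zero,
    Finset.sum_const_zero, add_zero, pr]
  push_cast
  refine Finset.sum_congr rfl fun k _ => ?_
  rw [Finset.sum_mul]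
  refine Finset.sum_congr rfl fun l _ => ?_
  ring

theorem vec_der (v : Fin n → ℤ) (f : Pl n m) :
    ∑ x, C (vec m v x) * pderiv x f = der v f := by
  simp [Fintype.sum_sum_type, vec, der]

theorem rl_single (A : Matrix (Fin n) (Fin n) ℤ) (b : Fin n → Fin m → ℚ) (i : Fin n) :
    rl A b (Pi.single i 1) = al A b i := by
  classical
  unfold rl
  rw [Finset.sum_eq_single i]
  · simp
  · intro j _ hj
    simp [Pi.single_eq_of_ne hj]
  · simp

theorem der_single (i : Fin n) (f : Pl n m) :
    der (Pi.single i 1) f = pderiv (Sum.inl i) f := by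
  classical
  unfold der
  rw [Finset.sum_eq_single i]
  · simp
  · intro j _ hj
    simp [Pi.single_eq_of_ne hj]
  · simp

theorem sv_single (A : Matrix (Fin n) (Fin n) ℤ) (i j : Fin n) :
    sv A j (Pi.single i 1) = Pi.single i 1 - A i j • Pi.single j 1 := by
  classical
  funext x
  simp only [sv, Pi.sub_apply, Pi.smul_apply, smul_eq_mul]
  congr 1
  rw [Finset.sum_eq_single i]
  · by_cases h : x = j
    · subst h; simp
    · simp [h]
  · intro k _ hk
    simp [Pi.single_eq_of_ne hk]
  · simp

theorem sr_single (A : Matrix (Fin n) (Fin n) ℤ) (i j : Fin n) :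
    sr A j (Pi.single i 1) = Pi.single i 1 - A j i • Pi.single j 1 := by
  classical
  funext x
  simp only [sr, Pi.sub_apply, Pi.smul_apply, smul_eq_mul]
  congr 1
  rw [Finset.sum_eq_single i]
  · by_cases h : x = j
    · subst h; simp
    · simp [h]
  · intro k _ hk
    simp [Pi.single_eq_of_ne hk]
  · simp

theorem der_sub_smul (u v : Fin n → ℤ) (c : ℤ) (f : Pl n m) :
    der (u - c • v) f = der u f - C (c : ℚ) * der v f := by
  unfold der
  rw [Finset.mul_sum, ← Finset.sum_sub_distrib]
  refine Finset.sum_congr rfl fun i _ => ?_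
  simp only [Pi.sub_apply, Pi.smul_apply, smul_eq_mul, Int.cast_sub, Int.cast_mul, map_sub,
    map_mul]
  ring

theorem rl_sub_smul (A : Matrix (Fin n) (Fin n) ℤ) (b : Fin n → Fin m → ℚ)
    (u v : Fin n → ℤ) (c : ℤ) :
    rl A b (u - c • v) = rl A b u - C (c : ℚ) * rl A b v := by
  unfold rl
  rw [Finset.mul_sum, ← Finset.sum_sub_distrib]
  refine Finset.sum_congr rfl fun i _ => ?_
  simp only [Pi.sub_apply, Pi.smul_apply, smul_eq_mul, Int.cast_sub, Int.cast_mul, map_sub,
    map_mul]
  ring

/-- A reflection on a linear form. -/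
theorem rr_lin {σ : Type} [Fintype σ] (β v γ : σ → ℚ) :
    rr β v (∑ y, C (γ y) * X y) =
      ∑ y, C (γ y) * X y - C (∑ y, γ y * v y) * ∑ y, C (β y) * X y := by
  simp only [map_sum, map_mul, rr, aeval_X, algHom_C]
  rw [Finset.sum_mul, ← Finset.sum_sub_distrib]
  refine Finset.sum_congr rfl fun y _ => ?_
  simp only [algebraMap_eq, mul_sub, mul_assoc]

theorem rr_base (A : Matrix (Fin n) (Fin n) ℤ) (b : Fin n → Fin m → ℚ) (i : Fin n) :
    rr (bet A b (Pi.single i 1)) (vec m (Pi.single i 1)) = rf A b i := by
  classical
  apply MvPolynomial.algHom_ext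
  intro x
  simp only [rr, rf, aeval_X]
  rw [bet_lin, rl_single]
  rcases x with k | s
  · by_cases h : k = i
    · subst h; simp [vec]
    · simp [vec, h]
  · simp [vec]

theorem rr_step (hC : S_COV) (A : Matrix (Fin n) (Fin n) ℤ) (b : Fin n → Fin m → ℚ)
    (j : Fin n) (hj : A j j = 2) (r v : Fin n → ℤ) :
    rr (bet A b (sr A j r)) (vec m (sv A j v)) =
      (rf A b j).comp ((rr (bet A b r) (vec m v)).comp (rf A b j)) := by
  classical
  apply MvPolynomial.algHom_ext
  intro x
  obtain ⟨_, h2, _, _⟩ := hC n m A b j hj
  have hα : rf A b j (al A b j) = - al A b j := by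
    rw [← rl_single A b j, h2, sr_single, rl_sub_smul, rl_single, hj]
    simp only [Int.cast_ofNat, map_ofNat]
    ring
  have hrα : rr (bet A b r) (vec m v) (al A b j) =
      al A b j - C ((∑ k, v k * A k j : ℤ) : ℚ) * rl A b r := by
    have h := rr_lin (bet A b r) (vec m v) (bet A b (Pi.single j 1))
    rw [bet_lin, bet_lin, bet_vec, rl_single] at h
    rw [h]
    congr 3
    unfold pr
    norm_cast
    refine Finset.sum_congr rfl fun k _ => ?_
    rw [Finset.sum_eq_single j]
    · simp
    · intro l _ hl
      simp [Pi.single_eq_of_ne hl]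
    · simp
  simp only [AlgHom.comp_apply]
  have e1 : rf A b j (X x) = X x - if x = Sum.inl j then al A b j else 0 := by
    simp [rf]
  have e2 : rr (bet A b r) (vec m v) (X x) = X x - C (vec m v x) * rl A b r := by
    simp only [rr, aeval_X]
    rw [bet_lin]
  have e3 : rr (bet A b (sr A j r)) (vec m (sv A j v)) (X x) =
      X x - C (vec m (sv A j v) x) * rl A b (sr A j r) := by
    simp only [rr, aeval_X]
    rw [bet_lin]
  rw [e3, e1, map_sub, e2]
  by_cases hx : x = Sum.inl j
  · subst hx
    simp only [if_true] at e1 ⊢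
    rw [hrα]
    simp only [map_sub, map_mul, algHom_C, h2, hα, e1, algebraMap_eq]
    simp only [vec, Sum.elim_inl, sv, if_true]
    push_cast
    simp only [map_sub]
    ring
  · simp only [hx, if_false, sub_zero] at e1 ⊢
    simp only [map_zero, sub_zero, map_sub, map_mul, algHom_C, h2, e1, algebraMap_eq]
    rcases x with k | s
    · have hk : k ≠ j := fun h => hx (by rw [h])
      simp [vec, sv, hk]
    · simp [vec]

theorem sym : S_DIV → S_COV → S_HYP → S_CON → S_SYM := by
  classical
  intro hDiv hCov hHyp hCon n m A b hG hI hD f hf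
  have hf' : ∀ j, rf A b j f = f := fun j => hf j (Finset.mem_univ j)
  have h2 : ∀ j, A j j = 2 := hG.1
  choose g hg1 hg2 using fun i => hDiv n m A b i f (h2 i) (hf' i)
  have c1 : ∀ j (v : Fin n → ℤ) (p : Pl n m),
      rf A b j (der v p) = der (sv A j v) (rf A b j p) := fun j => (hCov n m A b j (h2 j)).1
  have c2 : ∀ j (r : Fin n → ℤ), rf A b j (rl A b r) = rl A b (sr A j r) :=
    fun j => (hCov n m A b j (h2 j)).2.1
  have c3 : ∀ j (p : Pl n m), rf A b j (rf A b j p) = p :=
    fun j => (hCov n m A b j (h2 j)).2.2.1
  have c4 : ∀ j (r v : Fin n → ℤ), pr A (sr A j r) (sv A j v) = pr A r v :=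
    fun j => (hCov n m A b j (h2 j)).2.2.2
  -- the derivative along a real coroot
  have hder : ∀ w i, der (cv A w i) f = rl A b (rt A w i) * hw A b w (g i) := by
    intro w i
    induction w with
    | nil =>
      simp only [cv, rt, hw, List.foldr_nil]
      rw [der_single, rl_single, hg1]
    | cons j w ih =>
      have e := congrArg (rf A b j) ih
      rw [c1, hf', map_mul, c2] at e
      exact e
  by_cases hz : ∃ i, g i = 0
  · left
    obtain ⟨i0, hi0⟩ := hz
    let S : Finset (Fin n) := Finset.univ.filter (fun j => pderiv (Sum.inl j) f = 0)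
    have hS : S = Finset.univ := by
      by_contra hne
      have hSn : S.Nonempty := ⟨i0, by simp [S, hg1, hi0]⟩
      obtain ⟨i, hi, j, hj, hij⟩ := hI S hSn hne
      have hi' : pderiv (Sum.inl i) f = 0 := (Finset.mem_filter.mp hi).2
      apply hj
      refine Finset.mem_filter.mpr ⟨Finset.mem_univ _, ?_⟩
      have e := congrArg (rf A b j) (der_single i f)
      rw [c1, hf', sv_single, der_sub_smul, der_single, der_single, hi', map_zero, zero_sub,
        neg_eq_zero] at e
      rcases mul_eq_zero.mp e with h | h
      · exfalso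
        apply hij
        have := (map_eq_zero_iff _ (MvPolynomial.C_injective (Fin n ⊕ Fin m) ℚ)).mp h
        exact_mod_cast this
      · exact h
    intro i
    have : i ∈ S := by rw [hS]; exact Finset.mem_univ _
    exact (Finset.mem_filter.mp this).2
  · right
    push Not at hz
    have hne : ∀ w i, hw A b w (g i) ≠ 0 := by
      intro w i
      induction w with
      | nil => exact hz i
      | cons j w ih =>
        intro h
        apply ih
        have e := congrArg (rf A b j) h
        rw [map_zero] at e
        simp only [hw, List.foldr_cons] at e ⊢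
        rw [c3] at e
        exact e
    have hrefl : ∀ w i, rr (bet A b (rt A w i)) (vec m (cv A w i)) f = f := by
      intro w i
      have key : ∀ w, ∀ p : Pl n m, (∀ j, rf A b j p = p) →
          rr (bet A b (rt A w i)) (vec m (cv A w i)) p = p := by
        intro w
        induction w with
        | nil =>
          intro p hp
          simp only [rt, cv, List.foldr_nil]
          rw [rr_base, hp]
        | cons j w ih =>
          intro p hp
          have e : rr (bet A b (rt A (j :: w) i)) (vec m (cv A (j :: w) i)) =
              (rf A b j).comp ((rr (bet A b (rt A w i)) (vec m (cv A w i))).comp (rf A b j)) :=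
            rr_step hCov A b j (h2 j) (rt A w i) (cv A w i)
          rw [e]
          simp only [AlgHom.comp_apply]
          rw [hp j, ih p hp, hp j]
      exact key w f hf'
    have hpr : ∀ w i, pr A (rt A w i) (cv A w i) = 2 := by
      intro w i
      induction w with
      | nil =>
        simp only [rt, cv, List.foldr_nil, pr]
        rw [Finset.sum_eq_single i]
        · rw [Finset.sum_eq_single i]
          · simp [h2]
          · intro k _ hk; simp [Pi.single_eq_of_ne hk]
          · simp
        · intro k _ hk; simp [Pi.single_eq_of_ne hk]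
        · simp
      | cons j w ih =>
        have := c4 j (rt A w i) (cv A w i)
        rw [ih] at this
        exact this
    let E : (List (Fin n) × Fin n) → (List (Fin n) × Fin n) → Prop := fun p q =>
      ∃ c : ℚ, c ≠ 0 ∧ hw A b p.1 (g p.2) = C c * hw A b q.1 (g q.2)
    have hE : Equivalence E := by
      refine ⟨fun p => ⟨1, one_ne_zero, by simp⟩, ?_, ?_⟩
      · rintro p q ⟨c, hc, h⟩
        refine ⟨c⁻¹, inv_ne_zero hc, ?_⟩
        rw [h, ← mul_assoc, ← C_mul, inv_mul_cancel₀ hc]
        simp
      · rintro p q r ⟨c, hc, h⟩ ⟨d, hd, h'⟩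
        refine ⟨c * d, mul_ne_zero hc hd, ?_⟩
        rw [h, h', C_mul, mul_assoc]
    have hEE := hCon n A hG hI hD E hE
      (by
        rintro j w w' i i' ⟨c, hc, h⟩
        refine ⟨c, hc, ?_⟩
        have e := congrArg (rf A b j) h
        rw [map_mul, algHom_C] at e
        exact e)
      (by
        intro j w i
        refine ⟨1, one_ne_zero, ?_⟩
        simp only [hw, List.foldr_cons]
        rw [c3]; simp)
      (by
        intro j
        refine ⟨1, one_ne_zero, ?_⟩
        simp only [hw, List.foldr_cons, List.foldr_nil]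
        rw [hg2]; simp)
      (by
        intro w w' i i' hnE
        by_contra hlt
        push Not at hlt
        apply hnE
        set x := pr A (rt A w i) (cv A w' i') with hx
        set y := pr A (rt A w' i') (cv A w i) with hy
        have hx0 : x ≠ 0 := by
          intro h
          rw [h] at hlt
          simp at hlt
        have hcond : ((x : ℚ) * (y : ℚ) < 0 ∨ 4 ≤ (x : ℚ) * (y : ℚ) ∨
            ((x : ℚ) = 0 ∧ (y : ℚ) ≠ 0) ∨ ((x : ℚ) ≠ 0 ∧ (y : ℚ) = 0)) := by
          by_cases hy0 : y = 0
          · right; right; right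
            exact ⟨by exact_mod_cast hx0, by exact_mod_cast hy0⟩
          · have hZ : x * y < 0 ∨ 4 ≤ x * y := by
              rcases lt_or_ge (x * y) 0 with h | h
              · exact Or.inl h
              · right
                have hxy : x * y = |x| * |y| := by
                  rw [← abs_mul, abs_of_nonneg h]
                have h1 : (1 : ℤ) ≤ |y| := Int.one_le_abs hy0
                have h3 : (0 : ℤ) ≤ |x| := abs_nonneg x
                rw [hxy]
                nlinarith
            rcases hZ with h | h
            · left; exact_mod_cast h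
            · right; left; exact_mod_cast h
        have key := hHyp (Fin n ⊕ Fin m) (bet A b (rt A w i)) (vec m (cv A w i))
          (bet A b (rt A w' i')) (vec m (cv A w' i')) f (hw A b w (g i)) (hw A b w' (g i'))
          (by rw [bet_vec, hpr]; norm_num) (by rw [bet_vec, hpr]; norm_num)
          (hrefl w i) (hrefl w' i')
          (by rw [vec_der, bet_lin, hder]) (by rw [vec_der, bet_lin, hder])
          (by rw [bet_vec, bet_vec]; exact hcond)
        rw [bet_vec, bet_vec, ← hx, ← hy] at key
        have hxq : (x : ℚ) ≠ 0 := by exact_mod_cast hx0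
        have hyq : (y : ℚ) ≠ 0 := by
          intro h
          rw [h, C_0, zero_mul] at key
          rcases mul_eq_zero.mp key with h' | h'
          · exact hxq ((map_eq_zero_iff _ (MvPolynomial.C_injective (Fin n ⊕ Fin m) ℚ)).mp h')
          · exact hne w i h'
        refine ⟨(x : ℚ)⁻¹ * y, mul_ne_zero (inv_ne_zero hxq) hyq, ?_⟩
        show hw A b w (g i) = C ((x : ℚ)⁻¹ * y) * hw A b w' (g i')
        rw [C_mul, mul_assoc, ← key, ← mul_assoc, ← C_mul, inv_mul_cancel₀ hxq]
        simp)
    have hEg : ∀ i j, ∃ c : ℚ, c ≠ 0 ∧ g i = C c * g j := fun i j => hEE i j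
    by_cases hn : Nonempty (Fin n)
    · obtain ⟨i0⟩ := hn
      choose c hc hcg using fun i => hEg i i0
      refine ⟨c, hc, ?_, g i0, ?_, ?_⟩
      · intro i j
        have e := congrArg (rf A b j) (der_single i f)
        rw [c1, hf', sv_single, der_sub_smul, der_single, der_single, hg1 i, hg1 j, hcg i, hcg j,
          map_mul, map_mul, algHom_C, ← rl_single A b i, c2, sr_single, rl_sub_smul, rl_single,
          rl_single] at e
        have hGj : rf A b j (g i0) = g i0 := by
          have e2 := hg2 j
          rw [hcg j, map_mul, algHom_C] at e2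
          exact mul_left_cancel₀ (by
            intro h
            exact hc j ((map_eq_zero_iff _ (MvPolynomial.C_injective (Fin n ⊕ Fin m) ℚ)).mp h)) e2
        rw [hGj] at e
        have hal : al A b j ≠ 0 := by
          intro h
          have e3 := congrArg (MvPolynomial.eval (Pi.single (Sum.inl j) (1 : ℚ))) h
          simp only [al, map_add, map_sum, map_mul, eval_C, eval_X, map_zero] at e3
          rw [Finset.sum_eq_single j] at e3
          · simp [h2] at e3
          · intro k _ hk
            simp [hk]
          · simp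
        have e4 : C (c i * ((A j i : ℤ) : ℚ)) * (al A b j * g i0) =
            C (c j * ((A i j : ℤ) : ℚ)) * (al A b j * g i0) := by
          simp only [C_mul]
          simp only [algebraMap_eq] at e
          linear_combination e
        have e5 := mul_right_cancel₀ (mul_ne_zero hal (hz i0)) e4
        exact MvPolynomial.C_injective _ _ e5
      · intro j _
        have e2 := hg2 j
        rw [hcg j, map_mul, algHom_C] at e2
        exact mul_left_cancel₀ (by
          intro h
          exact hc j ((map_eq_zero_iff _ (MvPolynomial.C_injective (Fin n ⊕ Fin m) ℚ)).mp h)) e2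
      · intro i
        rw [hg1 i, hcg i]
        ring
    · exact ⟨fun _ => 1, fun _ => one_ne_zero, fun i => absurd ⟨i⟩ hn, 1, Subalgebra.one_mem _,
        fun i => absurd ⟨i⟩ hn⟩

end Pool.Agent.Y567.KM
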